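import Mathlib
import Pool.Agent.R433.WF.FinalG

set_option autoImplicit false

/-!
# Record prime gaps around all the coefficients of the forms in a class

Let `f(Z) = log Z (log₂ Z)² log₄ Z / (log₃ Z)²` be the largest known order of prime gaps (up to
constants).  Let `g` be an integral form of degree `D ≥ 1` in `m > D` variables which is not
divisible by the square of a nonconstant form over `ℚ`, and let `q ≥ 1`.  For all large `Z` there
is a matrix `A` in `SL_m(ℤ)`, congruent to the identity modulo `q`, with entries at most `Z` in
absolute value, such that the equivalent form `g (x A)` has all its `C(m + D - 1, D)` coefficients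
at most `Z` in absolute value and for EVERY coefficient `a_α` all the integers `t` at distance at
most `c f(Z)` from `a_α` are composite, with a prime factor `p ≤ |t| ^ (1/10)`.

So every class of squarefree integral forms (for instance every class of integral quadratic forms
of rank at least two in at least three variables, every class of squarefree cubic forms in at least
four variables) contains forms, in a prescribed residue class, all of whose coefficients lie in the
middle of prime gaps of the largest known order.

The coefficients of `g (x A)` are polynomials in the entries of a matrix of `SL_m(ℤ)`; the equation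
`det A = 1` is not homogeneous, so the families of weighted homogeneous polynomials treated before
do not apply.

Method.  A product of elementary matrices gives polynomials `A(x)`, `x ∈ ℤ ^ d`, of determinant
one, almost uniformly distributed in `SL_m(𝔽_p)` for every large `p` (library `R433/SL`).  The
coefficient `a_α(A)` is a weight vector of the torus for the left multiplication, with the exponent
`α` as its weight.  It is squarefree as a polynomial in the `m²` entries (`Sq`), since the
specialisation of all the rows to one row is a multiple of `g`; so its values at all the matrices
are equidistributed modulo `p`, and the scaling of a row that does not occur and of a row that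
occurs carries this over to the matrices of determinant one (`EqSq`).  Two different exponents of
the same degree `D < m` are separated by a cocharacter of the torus of `SL_m` (`Sep`), which bounds
the number of the matrices for which two coefficients have given values (`Wt`).  The criterion of
the starting library (`Y837/SV/Crit3`) then applies.
-/

namespace Pool.Agent.Results.MP_7b323f_nt.ClassesOfForms

open MvPolynomial

/-- `f Z = log Z (log₂ Z)² log₄ Z / (log₃ Z)²`. -/
noncomputable def f (Z : ℝ) : ℝ :=
  Real.log Z * (Real.log (Real.log Z)) ^ 2 * Real.log (Real.log (Real.log (Real.log Z))) /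
    (Real.log (Real.log (Real.log Z))) ^ 2

/-- The form `g (x A)`: each variable `x_k` is replaced by `∑ i, A i k * x_i`. -/
noncomputable def act {m : ℕ} (A : Matrix (Fin m) (Fin m) ℤ) (g : MvPolynomial (Fin m) ℤ) :
    MvPolynomial (Fin m) ℤ :=
  aeval (fun k => ∑ i, C (A i k) * X i) g

/-- **Every class of squarefree integral forms of degree `D` in `m > D` variables contains forms
all of whose coefficients lie in the middle of prime gaps of record length.** -/
theorem result (m D q : ℕ) (hD : 0 < D) (hm : D < m) (hq : 0 < q) (g : MvPolynomial (Fin m) ℤ)
    (hg : g.IsHomogeneous D) (hsq : Squarefree (MvPolynomial.map (algebraMap ℤ ℚ) g)) :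
    ∃ c : ℝ, 0 < c ∧ ∃ Z₀ : ℝ, ∀ Z : ℕ, Z₀ ≤ Z → ∃ A : Matrix (Fin m) (Fin m) ℤ,
      A.det = 1 ∧ (∀ i j, |A i j| ≤ Z) ∧
      (∀ i j, (q : ℤ) ∣ A i j - (1 : Matrix (Fin m) (Fin m) ℤ) i j) ∧
      ∀ α : Fin m →₀ ℕ, ∑ i, α i = D → |coeff α (act A g)| ≤ Z ∧
        ∀ t : ℤ, |(t : ℝ) - (coeff α (act A g) : ℤ)| ≤ c * f Z →
          ∃ p : ℕ, p.Prime ∧ (p : ℤ) ^ 10 ≤ |t| ∧ (p : ℤ) ∣ t :=
  Pool.Agent.R433.WF.formmain m D q hD hm hq g hg hsq

end Pool.Agent.Results.MP_7b323f_nt.ClassesOfForms
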