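import Pool.Agent.R502.LG.PrimeFinal

set_option autoImplicit false

/-! # Long prime gaps near the numbers `α p + β`, for almost all primes `p`

Let `α > 0` be irrational, not a Liouville number, and `β` real.  For every `λ` and `δ > 0`, near
`α p + β`, for almost all primes `p`, the intervals of length `λ log p` all of whose integers have a
prime factor at most `p ^ δ` (in particular prime gaps longer than `λ log p`) occur with positive
local frequency at distance `O(log p)`.  For Liouville numbers this holds at arbitrarily large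
scales.

Proof: Vinogradov's exponential sums over primes (`Pool/Agent/TH915/PW`) give the numbers
`⌊α p + β⌋` a power level of distribution; the Selberg type weights for blocks of
`Pool/Agent/R526/AA` and an average over translates (`Pool/Agent/R502/LG`) do the rest. -/

namespace Pool.Agent.Results.MP_7b323f_nt.LongGapsNearPrimeMultiples

/-- Among the `K` consecutive blocks `(n + j l, n + (j + 1) l]`, `j < K`, of length `l` after `n`,
the number of those all of whose integers have a prime factor at most `z`. -/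
noncomputable def freeBlocks (z : ℝ) (l K n : ℕ) : ℕ := by
  classical
  exact ((Finset.range K).filter (fun j => ∀ m ∈ Finset.Ioc (n + j * l) (n + (j + 1) * l),
    ∃ p : ℕ, p.Prime ∧ (p : ℝ) ≤ z ∧ p ∣ m)).card

/-- The primes in `(Z, 2 Z]`. -/
noncomputable def dyadicPrimes (Z : ℝ) : Finset ℕ :=
  (Finset.Ioc ⌊Z⌋₊ ⌊2 * Z⌋₊).filter Nat.Prime

/-- All but at most a proportion `ε` of the primes `p ∈ (Z, 2 Z]` have at least `c K` free blocks
among the `K` blocks of length `⌈λ log Z⌉` after `⌊α p + β⌋`; free means that all the integers of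
the block have a prime factor at most `Z ^ δ`. -/
def AlmostAllPrimes (α β δ lam ε c : ℝ) (K : ℕ) (Z : ℝ) : Prop :=
  (((dyadicPrimes Z).filter (fun p : ℕ =>
    (freeBlocks (Z ^ δ) ⌈lam * Real.log Z⌉₊ K ⌊α * p + β⌋₊ : ℝ) < c * K)).card : ℝ) ≤
      ε * (dyadicPrimes Z).card

theorem result (α β : ℝ) (hα : 0 < α) (hirr : Irrational α) (δ lam ε : ℝ) (hδ : 0 < δ)
    (hlam : 0 < lam) (hε : 0 < ε) :
    ∃ c : ℝ, 0 < c ∧ ∃ K₀ : ℕ, ∀ K : ℕ, K₀ ≤ K →
      (∀ Z₁ : ℝ, ∃ Z : ℝ, Z₁ ≤ Z ∧ AlmostAllPrimes α β δ lam ε c K Z) ∧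
      (¬ Liouville α → ∃ Z₀ : ℝ, ∀ Z : ℝ, Z₀ ≤ Z → AlmostAllPrimes α β δ lam ε c K Z) :=
  Pool.Agent.R502.LG.final_primes α hα hirr β δ lam ε hδ hlam hε

end Pool.Agent.Results.MP_7b323f_nt.LongGapsNearPrimeMultiples
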