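import Mathlib
import Pool.Agent.R528.RM.MaxFinal

set_option autoImplicit false

/-!
# Random models of the primes: the exact lower limit of the maximal gap

Cramér's conjecture on the order of `G(X)`, the largest gap between consecutive primes up to `X`, is
derived from a random model of the primes.  The theorem below gives the exact lower limit law of
`G(X)`, at the second order, in EVERY random model in which the integers are decided one after the
other and the conditional probability of choosing `n + 1` given the past is
`1 / (log n + o(log log log n))` (no independence is assumed; Cramér's model and the Hawkins random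
sieve are examples).  Almost surely

* `G(X) > (log X)² - log X (log log X + (1 + ε) log log log X)` for all large `X`, and
* `G(X) < (log X)² - log X (log log X + (1 - ε) log log log X)` for arbitrarily large `X`,

for every `ε > 0`.  In other words, the lower limit of
`(G(X) - (log X)² + log X log log X) / (log X log log log X)` is `-1`.
(The corresponding upper limit, of `(G(X) - (log X)²) / (log X log log log X)`, is `1`; this is the
law `RandomModelSecondOrderLaw` handed in for `MP_69be96_nt`.)
-/

open MeasureTheory Filter
open scoped Topology

namespace Pool.Agent.Results.MP_7b323f_nt.MaximalGapLowerLimit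

/-- the member number `n` (counted from `0`) of the set `S` of natural numbers -/
noncomputable def member (S : Set ℕ) (n : ℕ) : ℕ := Nat.nth (fun a => a ∈ S) n

/-- the largest difference `g` of two consecutive members of `S` which are at most `X`
(and `0` if there is none) -/
noncomputable def maxGap (S : Set ℕ) (X : ℝ) : ℕ :=
  sSup {g : ℕ | ∃ n, (member S (n + 1) : ℝ) ≤ X ∧ g = member S (n + 1) - member S n}

end Pool.Agent.Results.MP_7b323f_nt.MaximalGapLowerLimit

open Pool.Agent.Results.MP_7b323f_nt.MaximalGapLowerLimit

/-- Let `A n` be the event that `n` belongs to a random set adapted to a filtration `ℱ`, such that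
almost surely the reciprocal of the conditional probability of `A (n + 1)` given `ℱ n` is
`log n + o(log log log n)`.  Then almost surely the random set is infinite and, for every `ε > 0`,
its largest gap up to `X` is larger than `(log X)² - log X (log log X + (1 + ε) log log log X)` for
all large real `X`, and smaller than `(log X)² - log X (log log X + (1 - ε) log log log X)` for
arbitrarily large real `X`. -/
theorem Pool.Agent.Results.MP_7b323f_nt.MaximalGapLowerLimit.result
    {Ω : Type} [mΩ : MeasurableSpace Ω] (μ : Measure Ω) [IsProbabilityMeasure μ]
    (ℱ : Filtration ℕ mΩ) (A : ℕ → Set Ω) (hA : ∀ n, MeasurableSet[ℱ n] (A n))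
    (hd : ∀ᵐ ω ∂μ, Tendsto (fun n : ℕ =>
      (((μ[(A (n + 1)).indicator (fun _ => (1 : ℝ)) | ℱ n]) ω)⁻¹ - Real.log n) /
        Real.log (Real.log (Real.log n))) atTop (𝓝 0)) :
    ∀ᵐ ω ∂μ, {a | ω ∈ A a}.Infinite ∧ ∀ ε : ℝ, 0 < ε →
      (∀ᶠ X : ℝ in atTop, Real.log X ^ 2 - Real.log X * (Real.log (Real.log X) +
        (1 + ε) * Real.log (Real.log (Real.log X))) < maxGap {a | ω ∈ A a} X) ∧
      (∃ᶠ X : ℝ in atTop, (maxGap {a | ω ∈ A a} X : ℝ) < Real.log X ^ 2 - Real.log X *
        (Real.log (Real.log X) + (1 - ε) * Real.log (Real.log (Real.log X)))) :=
  Pool.Agent.R528.RM.max_law hA hd
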