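import Pool.Agent.R502.TQ.Fin2

/-!
# Primes `p` such that all the multiples `m p / d` are far from all other primes

For every `λ` and `A` a positive proportion of the primes `p` have the following property: for all
integers `1 ≤ d ≤ m ≤ A` no prime `n` other than `p` is at distance at most `(λ / d) log p` from
`m p / d`.  For `m = d = 1`, both gaps adjacent to `p` are larger than `λ log p`; for `m = 2`,
`d = 1`, there is no prime within `λ log p` of `2 p`, and so on, simultaneously.

Proof: if `d n = m p ± k` then, with `M = (A!) ²`, the integer `M p ± k (M / m)` is a multiple of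
`n` with a bounded quotient; conditions on the divisibility of the integers `M p + h`,
`0 < |h| = O(log p)`, by small primes, which exclude this, hold for a positive proportion of the
primes `p` by the Selberg type weights for blocks of `Pool/Agent/R526/AA`, in the form of
`Pool/Agent/R502/TQ`, and the Bombieri-Vinogradov theorem.
-/

set_option autoImplicit false

namespace Pool.Agent.Results.MP_7b323f_nt.RationalMultiplesIsolated

open Finset

open Classical in
/-- For a positive proportion of the primes `p ≤ X`, every prime `n` with
`|d n - m p| ≤ λ log p`, where `1 ≤ d ≤ m ≤ A`, is equal to `p`. -/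
theorem result (lam : ℝ) (hlam : 0 < lam) (A : ℕ) :
    ∃ c : ℝ, 0 < c ∧ ∃ X₀ : ℕ, ∀ X : ℕ, X₀ ≤ X →
      c * Nat.primeCounting X ≤ (((Icc 1 X).filter (fun p : ℕ => p.Prime ∧
        ∀ n d m : ℕ, n.Prime → 1 ≤ d → d ≤ m → m ≤ A →
          |(d : ℝ) * n - m * p| ≤ lam * Real.log p → n = p)).card : ℝ) :=
  Pool.Agent.R502.TQ.multiples_pos lam hlam A

end Pool.Agent.Results.MP_7b323f_nt.RationalMultiplesIsolated
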